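import Pool.Agent.H89.DF.TargetsB
import Pool.Agent.H39.FC.KE0

/-!
Board dfx_modules, row LEC: the completed Epstein zeta function of weight `0` at `s = 0`.
-/

set_option autoImplicit false

open MeasureTheory Set Filter
open scoped Real Matrix MatrixGroups

namespace Pool.Agent.H40.DF

open Pool.Agent.H31.CN Pool.Agent.H89.FM Pool.Agent.H89.FC Pool.Agent.H89.DF

open Classical in
/-- the terms of the theta function -/
noncomputable def tl (n : ℕ) (L : AddSubgroup (ℤ × ℤ)) (x y : ℝ) (w : ℂ) (v : ℤ × ℤ) : ℂ :=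
  if v ∈ L then Complex.exp (-(2 * π * w * ((qz x y v / n : ℝ) : ℂ))) else 0

theorem tl_deriv (n : ℕ) (L : AddSubgroup (ℤ × ℤ)) (x y : ℝ) (v : ℤ × ℤ) (hv : v ∈ L) :
    HasDerivAt (fun w : ℂ => tl n L x y w v)
      (-(2 * π * ((qz x y v / n : ℝ) : ℂ)) *
        Complex.exp (-(2 * π * ((qz x y v / n : ℝ) : ℂ)))) 1 := by
  have hf : (fun w : ℂ => tl n L x y w v) = fun w : ℂ =>
      Complex.exp (-(2 * π * w * ((qz x y v / n : ℝ) : ℂ))) := by
    funext w
    unfold tl
    rw [if_pos hv]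
  rw [hf]
  have h5 : HasDerivAt (fun w : ℂ => Complex.exp (-(2 * π * w * ((qz x y v / n : ℝ) : ℂ))))
      (Complex.exp (-(2 * π * 1 * ((qz x y v / n : ℝ) : ℂ))) *
        (-(2 * π * ((qz x y v / n : ℝ) : ℂ)))) 1 := by
    apply HasDerivAt.cexp
    have := ((hasDerivAt_id (1 : ℂ)).const_mul (2 * (π : ℂ))).mul_const
      ((qz x y v / n : ℝ) : ℂ)
    exact this.neg.congr_deriv (by simp)
  refine h5.congr_deriv ?_
  rw [mul_one]
  ring

/-- the completed Epstein zeta function of weight `0` at `0`, for every lattice -/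
theorem ez00 (hTHL : T_THL) (hTHH : T_THH) (n : ℕ) (L : AddSubgroup (ℤ × ℤ)) (x y : ℝ) (hn : 1 ≤ n)
    (hL : L ∈ Ls n) (hy : 0 < y) : Em 0 0 n L x y = 1 := by
  classical
  obtain ⟨hd, hinv⟩ := hTHH n L x y hn hL hy
  have hp := Real.pi_pos
  have hq : ∀ v : ℤ × ℤ, v ≠ 0 → 0 < qz x y v / n := fun v hv =>
    div_pos (Pool.Agent.H39.FC.qz_pos hy hv) (by exact_mod_cast hn)
  have hq0 : qz x y 0 / n = 0 := by
    unfold qz
    simp
  have hqn : ∀ v : ℤ × ℤ, 0 ≤ qz x y v / n := by
    intro v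
    by_cases hv : v = 0
    · rw [hv, hq0]
    · exact (hq v hv).le
  -- the terms are differentiable
  have hdt : ∀ v : ℤ × ℤ, Differentiable ℂ (fun w : ℂ => tl n L x y w v) := by
    intro v
    unfold tl
    by_cases h : v ∈ L
    · simp only [h, if_true]
      fun_prop
    · simp only [h, if_false]
      fun_prop
  -- the series of derivatives
  have hU : IsOpen (Metric.ball (1 : ℂ) (1 / 2)) := Metric.isOpen_ball
  have hs : HasSum (fun v : ℤ × ℤ => deriv (fun w : ℂ => tl n L x y w v) 1)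
      (deriv (fun w : ℂ => ∑' v, tl n L x y w v) 1) := by
    have hsum := (hTHL n L x y (1 / 2) hn hL hy (by norm_num)).1
    refine Complex.hasSum_deriv_of_summable_norm (U := Metric.ball (1 : ℂ) (1 / 2))
      hsum (fun v => (hdt v).differentiableOn) hU ?_ (by simp)
    intro v w hw
    have hw1 : ‖w - 1‖ < 1 / 2 := by simpa [dist_eq_norm] using hw
    have hwr : 1 / 2 ≤ w.re := by
      have h1 := Complex.abs_re_le_norm (w - 1)
      have h2 := abs_le.1 h1
      simp only [Complex.sub_re, Complex.one_re] at h2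
      linarith [h2.1]
    unfold tl
    by_cases h : v ∈ L
    · rw [if_pos h, Complex.norm_exp]
      apply Real.exp_le_exp.2
      have e1 : (-(2 * π * w * ((qz x y v / n : ℝ) : ℂ))).re =
          -(2 * π * w.re * (qz x y v / n)) := by
        have : (-(2 * π * w * ((qz x y v / n : ℝ) : ℂ))) =
            ((-(2 * π * (qz x y v / n)) : ℝ) : ℂ) * w := by push_cast; ring
        rw [this, Complex.re_ofReal_mul]
        ring
      rw [e1]
      have h3 := hqn v
      have h4 : 0 ≤ 2 * π * (qz x y v / n) := by positivity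
      nlinarith
    · rw [if_neg h, norm_zero]
      exact (Real.exp_pos _).le
  have hT : (fun w : ℂ => ∑' v, tl n L x y w v) = ThL n L x y := by
    funext w
    unfold ThL tl
    rfl
  rw [hT] at hs
  set D := deriv (ThL n L x y) 1 with hD
  have h1m : (1 : ℂ) ∈ {w : ℂ | 0 < w.re} := by simp
  have hop : IsOpen {w : ℂ | 0 < w.re} := isOpen_lt continuous_const Complex.continuous_re
  have hdiff : HasDerivAt (ThL n L x y) D 1 :=
    ((hd 1 h1m).differentiableAt (hop.mem_nhds h1m)).hasDerivAt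
  have hA : HasDerivAt (fun w : ℂ => ThL n L x y w⁻¹) (D * (-1)) 1 := by
    have hi : HasDerivAt (fun w : ℂ => w⁻¹) (-1) 1 := by
      simpa using hasDerivAt_inv (one_ne_zero : (1 : ℂ) ≠ 0)
    have hd' : HasDerivAt (ThL n L x y) D ((1 : ℂ)⁻¹) := by simpa using hdiff
    exact hd'.comp (1 : ℂ) hi
  have hB : HasDerivAt (fun w : ℂ => w * ThL n L x y w) (ThL n L x y 1 + D) 1 := by
    have h := (hasDerivAt_id (1 : ℂ)).mul hdiff
    refine h.congr_deriv ?_
    simp
  have hE : D * (-1) = ThL n L x y 1 + D := by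
    refine (hA.congr_of_eventuallyEq ?_).unique hB
    filter_upwards [hop.mem_nhds h1m] with w hw
    exact (hinv w hw).symm
  have hS1 : Summable (fun v : ℤ × ℤ => tl n L x y 1 v) := by
    have h1 := (hTHL n L x y 1 hn hL hy one_pos).1
    refine Summable.of_norm_bounded h1 fun v => ?_
    unfold tl
    by_cases h : v ∈ L
    · rw [if_pos h, Complex.norm_exp]
      apply le_of_eq
      congr 1
      have : (-(2 * π * (1 : ℂ) * ((qz x y v / n : ℝ) : ℂ))) =
          ((-(2 * π * 1 * (qz x y v / n)) : ℝ) : ℂ) := by push_cast; ring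
      rw [this, Complex.ofReal_re]
    · rw [if_neg h, norm_zero]
      exact (Real.exp_pos _).le
  have hT1 : HasSum (fun v : ℤ × ℤ => tl n L x y 1 v) (ThL n L x y 1) := by
    have h := hS1.hasSum
    rwa [show ∑' v, tl n L x y 1 v = ThL n L x y 1 from congrFun hT 1] at h
  have hz : 2 * D + ThL n L x y 1 = 0 := by linear_combination -hE
  have hδ : HasSum (fun v : ℤ × ℤ => if v = 0 then (1 : ℂ) else 0) 1 := by
    have := hasSum_ite_eq (0 : ℤ × ℤ) (1 : ℂ)
    exact this
  have hsum : HasSum (fun v : ℤ × ℤ => (if v = 0 then (1 : ℂ) else 0) -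
      (2 * deriv (fun w : ℂ => tl n L x y w v) 1 + tl n L x y 1 v))
        (1 - (2 * D + ThL n L x y 1)) := hδ.sub ((hs.mul_left 2).add hT1)
  have h0L : (0 : ℤ × ℤ) ∈ L := L.zero_mem
  have hterm : ∀ v : ℤ × ℤ, (if v ∈ L ∧ v ≠ 0 then
      an x y v ^ (0 : ℤ) * Kmc (0 : ℤ).natAbs 1 0 ((qz x y v / n : ℝ) : ℂ) else 0) =
      (if v = 0 then (1 : ℂ) else 0) -
        (2 * deriv (fun w : ℂ => tl n L x y w v) 1 + tl n L x y 1 v) := by
    intro v
    by_cases hv0 : v = 0
    · subst hv0
      rw [if_neg (fun h => h.2 rfl), if_pos rfl, (tl_deriv n L x y 0 h0L).deriv]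
      unfold tl
      rw [if_pos h0L, hq0]
      simp
    · by_cases hvL : v ∈ L
      · rw [if_pos ⟨hvL, hv0⟩, if_neg hv0, (tl_deriv n L x y v hvL).deriv]
        have q := hq v hv0
        rw [zpow_zero, one_mul, Int.natAbs_zero, Pool.Agent.H39.FC.kmc0 0 _ q]
        unfold tl
        rw [if_pos hvL, mul_one]
        simp only [Nat.cast_zero, pow_zero]
        ring
      · rw [if_neg (fun h => hvL h.1), if_neg hv0]
        have hf : (fun w : ℂ => tl n L x y w v) = fun w : ℂ => 0 := by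
          funext w
          unfold tl
          rw [if_neg hvL]
        rw [hf, show tl n L x y 1 v = 0 from congrFun hf 1]
        simp
  unfold Em
  rw [tsum_congr hterm, hsum.tsum_eq, hz, sub_zero]

theorem top_mem_Ls : (⊤ : AddSubgroup (ℤ × ℤ)) ∈ Ls 1 := by
  unfold Ls
  have h : {L : AddSubgroup (ℤ × ℤ) | L.index = 1}.Finite := by
    refine (Set.finite_singleton (⊤ : AddSubgroup (ℤ × ℤ))).subset fun L hL => ?_
    exact AddSubgroup.index_eq_one.1 hL
  rw [dif_pos h, Set.Finite.mem_toFinset]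
  exact AddSubgroup.index_top

set_option linter.unusedVariables false in
theorem pf_EZC (hTHL : T_THL) (hTHH : T_THH) (hMEL : T_MELm) (hPSB : T_PSBm) : T_EZC := by
  intro x y hy
  exact ez00 hTHL hTHH 1 ⊤ x y le_rfl top_mem_Ls hy

end Pool.Agent.H40.DF
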